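import Pool.Agent.R188.Tetra

set_option autoImplicit false

/-!
# MP_aceab8_an, Q2 : periodic billiard orbits in the regular tetrahedron have an even number of bounces

The definitions (`IsRegular`, `centre`, `InInterior`, `InFace`, `mirror`, `PeriodicOrbit`) are in
`Pool/Agent/R188/Tetra.lean`.

If a periodic orbit had an odd number `n` of bounces, the product of its `n` reflections would be an
orthogonal map of determinant `-1` with a fixed vector, hence an involution; but the matrices of the
four reflections have entries in `ℤ[1/3]`, and a product of `2 n` of them in which neighbours are
different is not even integral at `3`.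
-/

namespace Pool.Agent.Results.MP_aceab8_an.EvenBounces

open Pool.Agent.R188.Tetra

/-- Every periodic billiard orbit in a regular tetrahedron has an even number of bounces. -/
theorem result : ∀ A : Fin 4 → E3, IsRegular A → ∀ (n : ℕ) (p v : ℕ → E3),
    PeriodicOrbit A n p v → Even n :=
  fun _ hA _ _ _ h => even_bounces hA h

end Pool.Agent.Results.MP_aceab8_an.EvenBounces
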